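import Pool.Agent.helper58.FI.SpecC

/-!
Row fi:BPL (MP_baa4d7_al): Brauer's permutation lemma.
-/

set_option autoImplicit false

namespace Pool.Agent.FI

open Pool.Agent.helper58.DC Pool.Agent.DI Pool.Agent.GR Pool.Agent.OB Pool.Agent.DR

theorem BPL : BPL_stmt := by
  intro A B _ _ _ _ X σ τ n hn hcard hX hinv
  have e : B ≃ A := (Fintype.equivOfCardEq hcard).symm
  have h1 : (Matrix.of fun (b : B) (a : A) => (starRingEnd ℂ) (X a b) / n) *
      (Matrix.of fun (a : A) (b : B) => X a b) = 1 := by
    ext b' b
    rw [Matrix.mul_apply, Matrix.one_apply]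
    simp only [Matrix.of_apply]
    have h := hX b b'
    have h2 : ∑ a, (starRingEnd ℂ) (X a b') / n * X a b = (∑ a, X a b * (starRingEnd ℂ) (X a b')) / n := by
      rw [Finset.sum_div]
      refine Finset.sum_congr rfl fun a _ => ?_
      ring
    rw [h2, h]
    by_cases hb : b = b'
    · rw [if_pos hb, if_pos hb.symm, div_self hn]
    · rw [if_neg hb, if_neg (fun h => hb h.symm), zero_div]
  have h2 := (Matrix.mul_eq_one_comm_of_equiv e).1 h1
  have hrow : ∀ a a' : A, ∑ b, X a b * (starRingEnd ℂ) (X a' b) = if a = a' then n else 0 := by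
    intro a a'
    have h := congrFun (congrFun h2 a) a'
    rw [Matrix.mul_apply, Matrix.one_apply] at h
    simp only [Matrix.of_apply] at h
    have h3 : ∑ b, X a b * ((starRingEnd ℂ) (X a' b) / n) = (∑ b, X a b * (starRingEnd ℂ) (X a' b)) / n := by
      rw [Finset.sum_div]
      refine Finset.sum_congr rfl fun b _ => ?_
      ring
    rw [h3, div_eq_iff hn] at h
    rw [h]
    split_ifs <;> simp
  have hstep : ∀ a b, X (σ a) b = X a (τ.symm b) := by
    intro a b
    have h := hinv a (τ.symm b)
    rwa [Equiv.apply_symm_apply] at h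
  have hA : ∑ a, ∑ b, X a b * (starRingEnd ℂ) (X (σ a) b) =
      n * ((Finset.univ.filter fun a => σ a = a).card : ℂ) := by
    simp only [hrow]
    rw [Finset.card_filter]
    push_cast
    rw [Finset.mul_sum]
    refine Finset.sum_congr rfl fun a _ => ?_
    by_cases h : σ a = a
    · rw [if_pos h, if_pos h.symm, mul_one]
    · rw [if_neg h, if_neg (fun h' => h h'.symm), mul_zero]
  have hB : ∑ b, ∑ a, X a b * (starRingEnd ℂ) (X a (τ.symm b)) =
      n * ((Finset.univ.filter fun b => τ b = b).card : ℂ) := by
    simp only [hX]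
    rw [Finset.card_filter]
    push_cast
    rw [Finset.mul_sum]
    refine Finset.sum_congr rfl fun b _ => ?_
    by_cases h : τ b = b
    · rw [if_pos h, if_pos (((Equiv.symm_apply_eq τ).2 h.symm).symm), mul_one]
    · rw [if_neg h, if_neg (fun h' => h ?_), mul_zero]
      have := (Equiv.eq_symm_apply τ).1 h'
      exact this
  have hAB : n * ((Finset.univ.filter fun a => σ a = a).card : ℂ) =
      n * ((Finset.univ.filter fun b => τ b = b).card : ℂ) := by
    rw [← hA, ← hB, Finset.sum_comm]
    refine Finset.sum_congr rfl fun b _ => Finset.sum_congr rfl fun a _ => ?_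
    rw [hstep]
  have := mul_left_cancel₀ hn hAB
  exact_mod_cast this

end Pool.Agent.FI
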